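import Pool.Agent.H95.Pauli

set_option autoImplicit false

open Pool.Agent.H95.Pauli

theorem Pool.Agent.Results.MP_d886ff_an.NotDiscrete.result :
    ∃ P : Set L2, P.Nontrivial ∧ (∀ f ∈ P, ∀ g ∈ P, f ≠ g → PauliPair f g) ∧ (∀ f ∈ P, BddSupp f) ∧
      ∃ f ∈ P, ∀ ε > 0, ∃ g ∈ P, g ≠ f ∧ ‖f - g‖ < ε :=
  main
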